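import Pool.Agent.Q164.Hyp3
import Mathlib.Algebra.Polynomial.Sequence

/-!
The multiplier sequence sets of the bases `P_j` are pairwise different.
-/

namespace Pool.Agent.Results.MP_5f9057_an.DistinctSets

open Polynomial Finset Pool.Agent.Q164 Filter Topology

/-- All (complex) zeros of the real polynomial `p` are real; the zero polynomial is included. -/
def IsHyperbolic (p : ℝ[X]) : Prop := p = 0 ∨ ∀ z : ℂ, aeval z p = 0 → z.im = 0

/-- A simple set of polynomials: `deg q_k = k`. -/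
def IsSimpleSet (q : ℕ → ℝ[X]) : Prop := ∀ k, (q k).degree = k

/-- The set of `q`-multiplier sequences. -/
def MS (q : ℕ → ℝ[X]) : Set (ℕ → ℝ) :=
  {γ | ∀ (n : ℕ) (a : ℕ → ℝ), IsHyperbolic (∑ k ∈ range (n + 1), C (a k) * q k) →
    IsHyperbolic (∑ k ∈ range (n + 1), C (a k * γ k) * q k)}

/-- The set of classical multiplier sequences. -/
def CMS : Set (ℕ → ℝ) := MS fun k => X ^ k

/-- The basis `P_j`. -/
noncomputable def P (j k : ℕ) : ℝ[X] := if k ≤ j then ∑ i ∈ range (k + 1), X ^ i else X ^ k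

/-! ### General facts -/

/-- The polynomial sequence of a simple set. -/
def toSeq (q : ℕ → ℝ[X]) (hq : IsSimpleSet q) : Polynomial.Sequence ℝ := ⟨q, hq⟩

theorem isUnit_lc (q : ℕ → ℝ[X]) (hq : IsSimpleSet q) (i : ℕ) :
    IsUnit (toSeq q hq i).leadingCoeff := by
  rw [isUnit_iff_ne_zero, Ne, leadingCoeff_eq_zero]
  exact (toSeq q hq).ne_zero i

noncomputable def basisOf (q : ℕ → ℝ[X]) (hq : IsSimpleSet q) : Module.Basis ℕ ℝ ℝ[X] :=
  (toSeq q hq).basis (isUnit_lc q hq)

theorem basisOf_apply (q : ℕ → ℝ[X]) (hq : IsSimpleSet q) (i : ℕ) : basisOf q hq i = q i :=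
  (toSeq q hq).basis_eq_self (isUnit_lc q hq) i

/-- Multiplier sequences through diagonal operators. -/
theorem mem_MS_iff {q : ℕ → ℝ[X]} (hq : IsSimpleSet q) {γ : ℕ → ℝ} {T : ℝ[X] →ₗ[ℝ] ℝ[X]}
    (hT : ∀ k, T (q k) = γ k • q k) :
    γ ∈ MS q ↔ ∀ f, Hyperbolic f → Hyperbolic (T f) := by
  have key : ∀ (n : ℕ) (a : ℕ → ℝ), T (∑ k ∈ range (n + 1), C (a k) * q k) =
      ∑ k ∈ range (n + 1), C (a k * γ k) * q k := by
    intro n a
    rw [map_sum]
    apply sum_congr rfl
    intro k _
    rw [← smul_eq_C_mul, T.map_smul, hT, smul_smul, smul_eq_C_mul]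
  constructor
  · intro h f hf
    set r := (basisOf q hq).repr f with hr
    obtain ⟨n, hn⟩ : ∃ n, r.support ⊆ range (n + 1) := by
      refine ⟨r.support.sup id, ?_⟩
      intro k hk
      rw [mem_range]
      have := le_sup (f := id) hk
      simp only [id_eq] at this
      omega
    have hf' : f = ∑ k ∈ range (n + 1), C (r k) * q k := by
      have h1 := (basisOf q hq).linearCombination_repr f
      rw [Finsupp.linearCombination_apply, Finsupp.sum_of_support_subset _ hn] at h1
      · rw [← h1]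
        apply sum_congr rfl
        intro k _
        rw [basisOf_apply, smul_eq_C_mul]
      · intro i _
        rw [zero_smul]
    have := h n (fun k => r k) (by rw [← hf']; exact hf)
    rw [← key, ← hf'] at this
    exact this
  · intro h n a ha
    have := h _ ha
    rw [key] at this
    exact this

/-- The diagonal operator. -/
noncomputable def op (q : ℕ → ℝ[X]) (hq : IsSimpleSet q) (γ : ℕ → ℝ) : ℝ[X] →ₗ[ℝ] ℝ[X] :=
  (basisOf q hq).constr ℝ fun k => γ k • q k

theorem op_apply {q : ℕ → ℝ[X]} (hq : IsSimpleSet q) (γ : ℕ → ℝ) (k : ℕ) :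
    op q hq γ (q k) = γ k • q k := by
  have := (basisOf q hq).constr_basis ℝ (fun k => γ k • q k) k
  rw [basisOf_apply] at this
  exact this

theorem degree_op {q : ℕ → ℝ[X]} (hq : IsSimpleSet q) {γ : ℕ → ℝ} {T : ℝ[X] →ₗ[ℝ] ℝ[X]}
    (hT : ∀ k, T (q k) = γ k • q k) (n : ℕ) (p : ℝ[X]) (hp : p.natDegree ≤ n) :
    (T p).natDegree ≤ n ∧ (T p).coeff n = γ n * p.coeff n := by
  have hnd : ∀ k, (q k).natDegree = k := fun k => natDegree_eq_of_degree_eq_some (hq k)
  have hlc : ∀ k, (q k).coeff k ≠ 0 := by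
    intro k h
    have h0 : (q k).leadingCoeff = 0 := by
      rw [leadingCoeff, hnd, h]
    rw [leadingCoeff_eq_zero] at h0
    have := hq k
    rw [h0, degree_zero] at this
    exact absurd this (by simp)
  induction n generalizing p with
  | zero =>
    have e : p = (p.coeff 0 / (q 0).coeff 0) • q 0 := by
      conv_lhs => rw [eq_C_of_natDegree_le_zero hp]
      conv_rhs => rw [eq_C_of_natDegree_eq_zero (hnd 0)]
      rw [smul_C, coeff_C_zero, smul_eq_mul, div_mul_cancel₀ _ (hlc 0)]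
    have e2 : T p = γ 0 • p := by
      rw [e, T.map_smul, hT, smul_comm]
    rw [e2]
    refine ⟨(natDegree_smul_le _ _).trans hp, by rw [coeff_smul, smul_eq_mul]⟩
  | succ n ih =>
    set c := p.coeff (n + 1) / (q (n + 1)).coeff (n + 1) with hc
    set p' := p - c • q (n + 1) with hp'
    have h1 : p'.natDegree ≤ n := by
      rw [natDegree_le_iff_coeff_eq_zero]
      intro N hN
      rw [hp', coeff_sub, coeff_smul, smul_eq_mul]
      rcases eq_or_lt_of_le (Nat.succ_le_of_lt hN) with h | h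
      · rw [← h, Nat.succ_eq_add_one, hc, div_mul_cancel₀ _ (hlc _), sub_self]
      · rw [coeff_eq_zero_of_natDegree_lt (lt_of_le_of_lt hp h),
          coeff_eq_zero_of_natDegree_lt (by rw [hnd]; exact h), mul_zero, sub_self]
    have e : T p = T p' + (c * γ (n + 1)) • q (n + 1) := by
      rw [hp', map_sub, T.map_smul, hT, smul_smul]
      abel
    obtain ⟨i1, -⟩ := ih p' h1
    have i2 : (T p').coeff (n + 1) = 0 := coeff_eq_zero_of_natDegree_lt (by omega)
    refine ⟨?_, ?_⟩
    · rw [e]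
      apply natDegree_add_le_of_degree_le (by omega)
      exact (natDegree_smul_le _ _).trans (hnd _).le
    · rw [e, coeff_add, i2, coeff_smul, smul_eq_mul, zero_add, hc]
      have := hlc (n + 1)
      field_simp

/-- The operator `∑ a_k x^k ↦ ∑ γ_k a_k x^k`. -/
noncomputable def classical (γ : ℕ → ℝ) : ℝ[X] →ₗ[ℝ] ℝ[X] :=
  Polynomial.lsum fun n => (γ n) • monomial n

theorem classical_X_pow (γ : ℕ → ℝ) (n : ℕ) : classical γ (X ^ n) = γ n • X ^ n := by
  rw [classical, lsum_apply, X_pow_eq_monomial, sum_monomial_index]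
  · simp
  · simp

theorem simple_X : IsSimpleSet fun k => X ^ k := fun k => degree_X_pow k

theorem MS_subset_CMS {q : ℕ → ℝ[X]} (hq : IsSimpleSet q) : MS q ⊆ CMS := by
  intro γ hγ
  rw [CMS, mem_MS_iff simple_X (classical_X_pow γ)]
  rw [mem_MS_iff hq (op_apply hq γ)] at hγ
  set T := op q hq γ with hT
  have hdeg := fun n p hp => degree_op hq (op_apply hq γ) n p hp
  rw [← hT] at hdeg
  intro f hf
  have hev : ∀ r : ℝ, Hyperbolic ((T (f.comp (C r * X))).comp (C r⁻¹ * X)) :=
    fun r => (hγ _ (hf.comp_scale r)).comp_scale _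
  apply Hyperbolic.of_tendsto (l := 𝓝[>] (0 : ℝ)) (g := fun r =>
    (T (f.comp (C r * X))).comp (C r⁻¹ * X)) (Eventually.of_forall hev)
  intro z
  -- expand in monomials
  have h1 : ∀ r : ℝ, 0 < r → aeval z ((T (f.comp (C r * X))).comp (C r⁻¹ * X)) =
      ∑ m ∈ range (f.natDegree + 1), (f.coeff m : ℂ) *
        ∑ i ∈ range (m + 1), ((T (X ^ m)).coeff i : ℂ) * z ^ i * (r : ℂ) ^ (m - i) := by
    intro r hr
    have hr' : (r : ℂ) ≠ 0 := by exact_mod_cast hr.ne'
    have e1 : f.comp (C r * X) = ∑ m ∈ range (f.natDegree + 1), (f.coeff m * r ^ m) • X ^ m := by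
      rw [comp, eval₂_eq_sum_range]
      apply sum_congr rfl
      intro m _
      rw [smul_eq_C_mul, C_mul, C_pow, mul_pow, mul_assoc]
    rw [e1, map_sum, aeval_comp, map_sum]
    apply sum_congr rfl
    intro m _
    rw [T.map_smul, map_smul]
    have e2 : aeval (aeval z (C r⁻¹ * X : ℝ[X])) (T (X ^ m)) =
        ∑ i ∈ range (m + 1), ((T (X ^ m)).coeff i : ℂ) * (z / r) ^ i := by
      have hle : (T (X ^ m)).natDegree < m + 1 :=
        Nat.lt_succ_of_le (hdeg m (X ^ m) (natDegree_X_pow_le m)).1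
      rw [aeval_eq_sum_range' hle]
      apply sum_congr rfl
      intro i _
      rw [Algebra.smul_def]
      congr 2
      simp
      rw [mul_comm, div_eq_mul_inv]
    rw [e2]
    have e3 : (f.coeff m * r ^ m) • ∑ i ∈ range (m + 1), ((T (X ^ m)).coeff i : ℂ) * (z / r) ^ i =
        (f.coeff m : ℂ) * ((r : ℂ) ^ m * ∑ i ∈ range (m + 1),
          ((T (X ^ m)).coeff i : ℂ) * (z / r) ^ i) := by
      rw [Complex.real_smul]
      push_cast
      ring
    rw [e3, mul_sum]
    congr 1
    apply sum_congr rfl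
    intro i hi
    rw [mem_range] at hi
    have : (r : ℂ) ^ m = (r : ℂ) ^ i * (r : ℂ) ^ (m - i) := by
      rw [← pow_add]
      congr 1
      omega
    rw [this, div_pow]
    field_simp
  have h2 : aeval z (classical γ f) =
      ∑ m ∈ range (f.natDegree + 1), (f.coeff m : ℂ) *
        ∑ i ∈ range (m + 1), ((T (X ^ m)).coeff i : ℂ) * z ^ i * (0 : ℂ) ^ (m - i) := by
    have e1 : f = ∑ m ∈ range (f.natDegree + 1), (f.coeff m) • X ^ m := by
      conv_lhs => rw [f.as_sum_range_C_mul_X_pow]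
      apply sum_congr rfl
      intro m _
      rw [smul_eq_C_mul]
    conv_lhs => rw [e1, map_sum, map_sum]
    apply sum_congr rfl
    intro m _
    rw [(classical γ).map_smul, classical_X_pow, map_smul, map_smul, map_pow, aeval_X,
      Complex.real_smul, Complex.real_smul, sum_range_succ, Nat.sub_self, pow_zero, mul_one,
      (hdeg m (X ^ m) (natDegree_X_pow_le m)).2, coeff_X_pow_self, mul_one, sum_eq_zero, zero_add]
    intro i hi
    rw [mem_range] at hi
    rw [zero_pow (by omega), mul_zero]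
  rw [h2]
  have h3 : Tendsto (fun r : ℝ => ∑ m ∈ range (f.natDegree + 1), (f.coeff m : ℂ) *
        ∑ i ∈ range (m + 1), ((T (X ^ m)).coeff i : ℂ) * z ^ i * (r : ℂ) ^ (m - i))
      (𝓝[>] 0) (𝓝 (∑ m ∈ range (f.natDegree + 1), (f.coeff m : ℂ) *
        ∑ i ∈ range (m + 1), ((T (X ^ m)).coeff i : ℂ) * z ^ i * (0 : ℂ) ^ (m - i))) := by
    have hc : Continuous fun r : ℝ => ∑ m ∈ range (f.natDegree + 1), (f.coeff m : ℂ) *
        ∑ i ∈ range (m + 1), ((T (X ^ m)).coeff i : ℂ) * z ^ i * (r : ℂ) ^ (m - i) := by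
      fun_prop
    have := (hc.tendsto 0).mono_left (nhdsWithin_le_nhds (s := Set.Ioi (0 : ℝ)))
    simpa using this
  refine h3.congr' ?_
  filter_upwards [self_mem_nhdsWithin] with r hr
  exact (h1 r hr).symm

/-! ### The bases `P_j` -/

theorem natDegree_geom (k : ℕ) : (∑ i ∈ range (k + 1), X ^ i : ℝ[X]).degree = k := by
  have h : (∑ i ∈ range (k + 1), X ^ i : ℝ[X]) = X ^ k + ∑ i ∈ range k, X ^ i := by
    rw [sum_range_succ, add_comm]
  rw [h, degree_add_eq_left_of_degree_lt, degree_X_pow]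
  rw [degree_X_pow]
  apply lt_of_le_of_lt (degree_sum_le _ _)
  rw [Finset.sup_lt_iff (by exact WithBot.bot_lt_coe k)]
  intro i hi
  rw [degree_X_pow]
  exact_mod_cast mem_range.1 hi

theorem simple_P (j : ℕ) : IsSimpleSet (P j) := by
  intro k
  rw [P]
  split_ifs
  · exact natDegree_geom k
  · exact degree_X_pow k

theorem geom_coeff (n k : ℕ) : (∑ i ∈ range n, X ^ i : ℝ[X]).coeff k = if k < n then 1 else 0 := by
  simp [coeff_X_pow]

/-- The sequence `2 ^ k`. -/
noncomputable def two : ℕ → ℝ := fun k => 2 ^ k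

theorem two_mem_CMS : two ∈ CMS := by
  rw [CMS, mem_MS_iff simple_X (classical_X_pow two)]
  intro f hf
  have : classical two f = f.comp (C 2 * X) := by
    have e : classical two = (aeval (C 2 * X : ℝ[X])).toLinearMap := by
      apply Polynomial.lhom_ext'
      intro n
      apply LinearMap.ext_ring
      rw [LinearMap.comp_apply, LinearMap.comp_apply, ← X_pow_eq_monomial, classical_X_pow,
        AlgHom.toLinearMap_apply, map_pow, aeval_X, two, smul_eq_C_mul, C_pow, mul_pow]
    rw [e]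
    rfl
  rw [this]
  exact hf.comp_scale 2

theorem two_notMem_MS (j : ℕ) (hj : 1 ≤ j) : two ∉ MS (P j) := by
  rw [mem_MS_iff (simple_P j) (op_apply (simple_P j) two)]
  set T := op (P j) (simple_P j) two with hT
  have hTP : ∀ k, T (P j k) = two k • P j k := op_apply (simple_P j) two
  intro h
  have P0 : P j 0 = 1 := by simp [P]
  have P1 : P j 1 = 1 + X := by simp [P, hj, sum_range_succ]
  rcases eq_or_lt_of_le hj with h1 | h1
  · have P2 : P j 2 = X ^ 2 := by rw [P, if_neg (by omega)]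
    have e : ((X + C 1) ^ 2 : ℝ[X]) = P j 2 + (2 : ℝ) • P j 1 - P j 0 := by
      rw [P0, P1, P2, smul_eq_C_mul, map_ofNat C 2]
      simp
      ring
    have h2 := (h _ ((hyperbolic_X_add_C 1).pow 2)).newton
    rw [e, map_sub, map_add, T.map_smul, hTP, hTP, hTP, P0, P1, P2] at h2
    simp [two, coeff_one, coeff_X, coeff_X_pow] at h2
    norm_num at h2
  · have P2 : P j 2 = 1 + X + X ^ 2 := by
      rw [P, if_pos (by omega)]
      simp [sum_range_succ]
    have e : (X ^ 2 : ℝ[X]) = P j 2 - P j 1 := by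
      rw [P1, P2]
      ring
    have h2 := (h _ (hyperbolic_X.pow 2)).newton
    rw [e, map_sub, hTP, hTP, P1, P2] at h2
    simp [two, coeff_one, coeff_X, coeff_X_pow] at h2
    norm_num at h2

/-- The separating sequence `k (k - 1) ⋯ (k - i)`. -/
noncomputable def fall (i : ℕ) : ℕ → ℝ := fun k => (k.descFactorial (i + 1) : ℝ)

theorem fall_mem (i : ℕ) : fall i ∈ MS (P i) := by
  let T : ℝ[X] →ₗ[ℝ] ℝ[X] := LinearMap.mulLeft ℝ (X ^ (i + 1)) ∘ₗ (derivative ^ (i + 1))
  have hTa : ∀ p, T p = X ^ (i + 1) * derivative^[i + 1] p := by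
    intro p
    simp only [T, LinearMap.comp_apply, LinearMap.mulLeft_apply, Module.End.pow_apply]
  have hT : ∀ k, T (P i k) = fall i k • P i k := by
    intro k
    rw [hTa]
    by_cases hk : k ≤ i
    · rw [iterate_derivative_eq_zero, mul_zero, fall, Nat.descFactorial_of_lt (by omega),
        Nat.cast_zero, zero_smul]
      rw [natDegree_eq_of_degree_eq_some (simple_P i k)]
      omega
    · rw [P, if_neg hk, iterate_derivative_X_pow_eq_smul, fall, mul_smul_comm, ← pow_add]
      congr 2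
      omega
  rw [mem_MS_iff (simple_P i) hT]
  intro f hf
  rw [hTa]
  exact (hyperbolic_X.pow _).mul (hf.iterate_deriv _)

theorem fall_notMem {i j : ℕ} (hi : 1 ≤ i) (hij : i < j) : fall i ∉ MS (P j) := by
  rw [mem_MS_iff (simple_P j) (op_apply (simple_P j) (fall i))]
  set T := op (P j) (simple_P j) (fall i) with hT
  have hTP : ∀ k, T (P j k) = fall i k • P j k := op_apply (simple_P j) (fall i)
  intro h
  have Pi : P j i = ∑ l ∈ range (i + 1), X ^ l := by rw [P, if_pos (by omega)]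
  have Pi1 : P j (i + 1) = ∑ l ∈ range (i + 1 + 1), X ^ l := by rw [P, if_pos (by omega)]
  have e : (X ^ (i + 1) : ℝ[X]) = P j (i + 1) - P j i := by
    rw [Pi, Pi1, sum_range_succ _ (i + 1)]
    ring
  have h2 := (h _ (hyperbolic_X.pow (i + 1))).newton
  have f0 : fall i i = 0 := by
    rw [fall, Nat.descFactorial_of_lt (by omega), Nat.cast_zero]
  have f1 : 0 < fall i (i + 1) := by
    rw [fall, Nat.descFactorial_self]
    exact_mod_cast Nat.factorial_pos _
  rw [e, map_sub, hTP, hTP, f0, zero_smul, sub_zero, Pi1] at h2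
  simp only [coeff_smul, geom_coeff, smul_eq_mul] at h2
  rw [if_pos (by omega), if_pos (by omega), if_pos (by omega)] at h2
  nlinarith

theorem MS_ne {i j : ℕ} (hi : 1 ≤ i) (hij : i < j) : MS (P i) ≠ MS (P j) := by
  intro h
  apply fall_notMem hi hij
  rw [← h]
  exact fall_mem i

theorem result :
    (∀ j, IsSimpleSet (P j)) ∧
    (∀ i j, 1 ≤ i → 1 ≤ j → i ≠ j → MS (P i) ≠ MS (P j)) ∧
    (∃ Q : ℕ → ℕ → ℝ[X], (∀ j, IsSimpleSet (Q j)) ∧ (∀ i j, i ≠ j → MS (Q i) ≠ MS (Q j)) ∧
      (⋃ j, MS (Q j)) ⊂ CMS) := by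
  have main : ∀ i j, 1 ≤ i → 1 ≤ j → i ≠ j → MS (P i) ≠ MS (P j) := by
    intro i j hi hj hij
    rcases lt_or_gt_of_ne hij with h | h
    · exact MS_ne hi h
    · exact (MS_ne hj h).symm
  refine ⟨simple_P, main, fun j => P (j + 1), fun j => simple_P _, ?_, ?_⟩
  · intro i j hij
    exact main _ _ (by omega) (by omega) (by omega)
  · rw [Set.ssubset_iff_of_subset]
    · refine ⟨two, two_mem_CMS, ?_⟩
      rw [Set.mem_iUnion]
      rintro ⟨j, hj⟩
      exact two_notMem_MS (j + 1) (by omega) hj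
    · apply Set.iUnion_subset
      intro j
      exact MS_subset_CMS (simple_P _)

end Pool.Agent.Results.MP_5f9057_an.DistinctSets
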